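import Mathlib
import Pool.Agent.X286.Vn.Arr
import Pool.Agent.X286.Sz.Pow

/-!
# The truncated counting function of an irreducible hyperplane arrangement: few exponents

Let `D` be the sum of the hyperplanes `L i = 0` of `P ^ n` over `ℚ`, where the arrangement is
essential and irreducible (it is not a product of two arrangements). This is the condition for the
complement to be of log general type: `K + D` is big, where `D` is now the reduced preimage of the
hyperplanes on the blow-up of `P ^ n` on which they have normal crossings (the truncated counting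
functions of both divisors are the same). Examples are `n + 2` or more hyperplanes in general
position, and the braid arrangements, whose complements are the moduli spaces `M_{0, n + 3}`.

For all `m` and `ε > 0` there are `κ`, `δ > 0` and `C` such that for every `X ≥ 2` all rational points
`P` with `N^(1)_S(D, P) ≤ log X`, with at most `m` different exponents outside `S` in the prime
factorisations of the `L i (P)`, and of height `κ log X < h(P) ≤ X ^ δ`, are on at most `C X ^ ε`
hyperplanes. So outside these few hyperplanes `h(P) ≤ κ log X`.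

Method: the counting theorem for sums of products of powers of few integers (`Pool.Agent.Y902.GN.gq`,
determinant method with unbounded exponents) is applied to a minimal relation between the forms which
crosses a given cut of the arrangement. Points which are near to each other for this relation and
span the whole space would give the point a small height (Cramer's rule); if all cuts are crossed by
small quotients, then all quotients are small.
-/

set_option autoImplicit false

namespace Pool.Agent.Results.MP_9ec3f0_nt.IrreducibleArrangements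

open Finset

/-- the value of the linear form `L i` at the integral vector `x` -/
def val {n q : ℕ} (L : Fin q → Fin (n + 1) → ℤ) (x : Fin (n + 1) → ℤ) (i : Fin q) : ℤ :=
  ∑ k, L i k * x k

/-- the linear form `L i` as a vector -/
def vec {n q : ℕ} (L : Fin q → Fin (n + 1) → ℤ) (i : Fin q) : Fin (n + 1) → ℚ :=
  fun k => (L i k : ℚ)

/-- the arrangement is essential (no common zero of all forms in `P ^ n`) and irreducible: the spans
of the forms of each nonempty proper subarrangement and of its complement have a common nonzero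
element -/
def Irreducible {n q : ℕ} (L : Fin q → Fin (n + 1) → ℤ) : Prop :=
  Submodule.span ℚ (Set.range (vec L)) = ⊤ ∧ ∀ A : Set (Fin q), A.Nonempty → Aᶜ.Nonempty →
    ¬ Disjoint (Submodule.span ℚ (vec L '' A)) (Submodule.span ℚ (vec L '' Aᶜ))

/-- any `n + 1` of the forms are linearly independent -/
def GeneralPosition {n q : ℕ} (L : Fin q → Fin (n + 1) → ℤ) : Prop :=
  ∀ s : Finset (Fin q), s.card = n + 1 → LinearIndependent ℚ fun i : s => vec L i

/-- `x` is a vector of coprime integral coordinates of a rational point of `P ^ n` which is on none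
of the hyperplanes -/
def IsPoint {n q : ℕ} (L : Fin q → Fin (n + 1) → ℤ) (x : Fin (n + 1) → ℤ) : Prop :=
  univ.gcd x = 1 ∧ ∀ i, val L x i ≠ 0

/-- the truncated counting function `N^(1)_S(D, x)`: the sum of `log p` over the primes `p` not in
`S` which divide one of the `L i (x)` -/
noncomputable def counting {n q : ℕ} (S : Finset ℕ) (L : Fin q → Fin (n + 1) → ℤ)
    (x : Fin (n + 1) → ℤ) : ℝ :=
  ∑ p ∈ (∏ i, val L x i).natAbs.primeFactors.filter (fun p => p ∉ S), Real.log p

/-- the exponents of the primes not in `S` in the factorisations of the `L i (x)` -/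
def exponents {n q : ℕ} (S : Finset ℕ) (L : Fin q → Fin (n + 1) → ℤ) (x : Fin (n + 1) → ℤ) :
    Finset ℕ :=
  univ.biUnion fun i : Fin q => ((val L x i).natAbs.primeFactors.filter (fun p => p ∉ S)).image
    (val L x i).natAbs.factorization

/-- the logarithmic height -/
noncomputable def height {n : ℕ} (x : Fin (n + 1) → ℤ) : ℝ :=
  Real.log ((univ.sup fun k => (x k).natAbs : ℕ) : ℝ)

open Pool.Agent.X286.Vn Pool.Agent.X286.Sz

theorem exists_rep {q N Y : ℕ} (y : Fin q → ℤ) (hy : ∀ i, PowerProduct N Y (y i).natAbs) :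
    Rep (q * N) 0 Y y := by
  classical
  choose b e hb he using hy
  obtain ⟨φ, hφ⟩ : ∃ φ : Fin q × Fin N ≃ Fin (q * N), φ = finProdFinEquiv := ⟨_, rfl⟩
  refine ⟨fun i => (y i).sign, fun j => b (φ.symm j).1 (φ.symm j).2, fun i j =>
    if (φ.symm j).1 = i then e i (φ.symm j).2 else 0, fun j => hb _ _, fun i => ?_, fun i => ?_⟩
  · rw [pow_zero]
    show |(y i).sign| ≤ 1
    rcases lt_trichotomy (y i) 0 with h | h | h
    · rw [Int.sign_eq_neg_one_of_neg h]; simp
    · rw [h]; simp
    · rw [Int.sign_eq_one_of_pos h]; simp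
  · have h1 : ∏ j, (b (φ.symm j).1 (φ.symm j).2 : ℤ) ^ (if (φ.symm j).1 = i then
        e i (φ.symm j).2 else 0) = (((y i).natAbs : ℕ) : ℤ) := by
      rw [Equiv.prod_comp φ.symm (fun z : Fin q × Fin N => (b z.1 z.2 : ℤ) ^ (if z.1 = i then
        e i z.2 else 0)), Fintype.prod_prod_type, Finset.prod_eq_single i]
      · simp only [if_true]
        rw [he i]
        push_cast
        rfl
      · intro i' _ hne
        refine prod_eq_one fun k _ => ?_
        rw [if_neg hne, pow_zero]
      · intro h
        exact absurd (mem_univ i) h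
    rw [h1, Int.sign_mul_natAbs]

/-- general position implies irreducibility -/
theorem irreducible_of_general {n q : ℕ} (hq : n + 2 ≤ q) {L : Fin q → Fin (n + 1) → ℤ}
    (hL : GeneralPosition L) : Irreducible L := by
  classical
  have hind : ∀ s : Finset (Fin q), s.card ≤ n + 1 → LinearIndependent ℚ fun i : s => vec L i := by
    intro s hs
    obtain ⟨t, hst, ht⟩ := Finset.exists_superset_card_eq hs (by rw [Fintype.card_fin]; omega)
    exact (hL t ht).comp (fun i : s => (⟨i.1, hst i.2⟩ : t)) (fun i j h =>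
      Subtype.ext (congrArg (fun z : t => z.1) h))
  have hzero : ∀ (s : Finset (Fin q)), s.card ≤ n + 1 → ∀ c : Fin q → ℚ,
      ∑ i ∈ s, c i • vec L i = 0 → ∀ i ∈ s, c i = 0 := by
    intro s hs c hc i hi
    have h1 := Fintype.linearIndependent_iff.1 (hind s hs) (fun i : s => c i) (by
      rw [← hc]
      exact Finset.sum_coe_sort s (fun i => c i • vec L i)) ⟨i, hi⟩
    exact h1
  have hdep : ∀ (s : Finset (Fin q)), n + 1 < s.card → ∃ c : Fin q → ℚ,
      ∑ i ∈ s, c i • vec L i = 0 ∧ ∃ i ∈ s, c i ≠ 0 := by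
    intro s hs
    have h1 : ¬ LinearIndependent ℚ fun i : s => vec L i := by
      intro h
      have := h.fintype_card_le_finrank
      rw [Fintype.card_coe, Module.finrank_fin_fun] at this
      omega
    rw [Fintype.not_linearIndependent_iff] at h1
    obtain ⟨g, hg1, ⟨i, hi⟩, hg2⟩ := h1
    refine ⟨fun j => if h : j ∈ s then g ⟨j, h⟩ else 0, ?_, i, hi, ?_⟩
    · rw [← Finset.sum_coe_sort s]
      rw [← hg1]
      refine sum_congr rfl fun j _ => ?_
      show (if h : (j : Fin q) ∈ s then g ⟨j, h⟩ else 0) • vec L j = g j • vec L j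
      rw [dif_pos j.2]
    · simpa [hi] using hg2
  constructor
  · obtain ⟨t, -, ht⟩ := Finset.exists_superset_card_eq (s := (∅ : Finset (Fin q))) (n := n + 1)
      (by simp) (by rw [Fintype.card_fin]; omega)
    have hne : Nonempty t := (card_pos.1 (by omega)).to_subtype
    have h1 := (hL t ht).span_eq_top_of_card_eq_finrank (by
      rw [Fintype.card_coe, ht, Module.finrank_fin_fun])
    rw [eq_top_iff, ← h1]
    apply Submodule.span_mono
    rintro _ ⟨i, rfl⟩
    exact ⟨i, rfl⟩
  · intro A hA hAc hdis
    obtain ⟨a0, ha0⟩ := hA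
    obtain ⟨b0, hb0⟩ := hAc
    -- a set of `n + 2` indices containing both
    obtain ⟨t, hst, ht⟩ := Finset.exists_superset_card_eq (s := ({a0, b0} : Finset (Fin q)))
      (n := n + 2) (card_le_two.trans (by omega)) (by rw [Fintype.card_fin]; omega)
    obtain ⟨c, hc, i1, hi1, hci1⟩ := hdep t (by omega)
    have ha0t : a0 ∈ t := hst (by simp)
    have hb0t : b0 ∈ t := hst (by simp)
    obtain ⟨tA, htA⟩ : ∃ tA, tA = t.filter fun i => i ∈ A := ⟨_, rfl⟩
    obtain ⟨tB, htB⟩ : ∃ tB, tB = t.filter fun i => i ∉ A := ⟨_, rfl⟩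
    have hsum : ∑ i ∈ tA, c i • vec L i + ∑ i ∈ tB, c i • vec L i = 0 := by
      rw [htA, htB, Finset.sum_filter_add_sum_filter_not, hc]
    have hcA : tA.card ≤ n + 1 := by
      have h1 : tA ⊂ t := by
        rw [htA, Finset.filter_ssubset]
        exact ⟨b0, hb0t, hb0⟩
      have := card_lt_card h1
      omega
    have hcB : tB.card ≤ n + 1 := by
      have h1 : tB ⊂ t := by
        rw [htB, Finset.filter_ssubset]
        exact ⟨a0, ha0t, fun h => h ha0⟩
      have := card_lt_card h1
      omega
    have hyA : ∑ i ∈ tA, c i • vec L i ∈ Submodule.span ℚ (vec L '' A) := by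
      refine Submodule.sum_mem _ fun i hi => Submodule.smul_mem _ _ (Submodule.subset_span ?_)
      rw [htA] at hi
      exact ⟨i, (mem_filter.1 hi).2, rfl⟩
    have hyB : ∑ i ∈ tA, c i • vec L i ∈ Submodule.span ℚ (vec L '' Aᶜ) := by
      rw [eq_neg_of_add_eq_zero_left hsum]
      refine Submodule.neg_mem _ (Submodule.sum_mem _ fun i hi =>
        Submodule.smul_mem _ _ (Submodule.subset_span ?_))
      rw [htB] at hi
      exact ⟨i, (mem_filter.1 hi).2, rfl⟩
    have hy0 := (Submodule.disjoint_def.1 hdis) _ hyA hyB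
    have h2 : ∀ i ∈ tA, c i = 0 := hzero tA hcA c hy0
    have h3 : ∀ i ∈ tB, c i = 0 := hzero tB hcB c (by rw [hy0, zero_add] at hsum; exact hsum)
    by_cases h4 : i1 ∈ A
    · exact hci1 (h2 i1 (by rw [htA]; exact mem_filter.2 ⟨hi1, h4⟩))
    · exact hci1 (h3 i1 (by rw [htB]; exact mem_filter.2 ⟨hi1, h4⟩))

/-- **Theorem.** Let `D` be the sum of the hyperplanes `L i = 0` of an essential irreducible
arrangement of `P ^ n` over `ℚ` and `S` a finite set of primes. For all `m` and `ε > 0` there are `κ`,
`δ > 0`, `C > 0` such that for every `X ≥ 2` there is a set of at most `C X ^ ε` proper linear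
subspaces of `P ^ n` which contains all points `P` off `D` with `N^(1)_S(D, P) ≤ log X`, with at most
`m` different exponents outside `S` in the factorisations of the `L i (P)`, and with
`κ log X < h(P) ≤ X ^ δ`. The arrangement is irreducible if it consists of `n + 2` or more hyperplanes
in general position. -/
theorem result :
    (∀ (n q : ℕ) (L : Fin q → Fin (n + 1) → ℤ), Irreducible L → ∀ (S : Finset ℕ) (m : ℕ) (ε : ℝ),
      0 < ε → ∃ κ δ C : ℝ, 0 < δ ∧ 0 < C ∧ ∀ X : ℝ, 2 ≤ X →
        ∃ 𝓥 : Finset (Submodule ℚ (Fin (n + 1) → ℚ)), (𝓥.card : ℝ) ≤ C * X ^ ε ∧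
          (∀ V ∈ 𝓥, V ≠ ⊤) ∧ ∀ x : Fin (n + 1) → ℤ, IsPoint L x →
            counting S L x ≤ Real.log X → (exponents S L x).card ≤ m →
            κ * Real.log X < height x → height x ≤ X ^ δ →
            ∃ V ∈ 𝓥, (fun k => (x k : ℚ)) ∈ V) ∧
    (∀ (n q : ℕ) (L : Fin q → Fin (n + 1) → ℤ), n + 2 ≤ q → GeneralPosition L →
      Irreducible L) := by
  classical
  refine ⟨fun n q L hL S m ε hε => ?_, fun n q L hq hL => irreducible_of_general hq hL⟩
  obtain ⟨M, hM⟩ : ∃ M : ℕ, M = ∏ p ∈ S.filter Nat.Prime, p := ⟨_, rfl⟩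
  have hM0 : 0 < M := by
    rw [hM]
    exact prod_pos fun p hp => (mem_filter.1 hp).2.pos
  have hMdvd : ∀ p : ℕ, p.Prime → (p ∣ M ↔ p ∈ S) := by
    intro p hp
    rw [hM, hp.prime.dvd_finsetProd_iff]
    constructor
    · rintro ⟨l, hl, hpl⟩
      rw [mem_filter] at hl
      rw [(Nat.prime_dvd_prime_iff_eq hp hl.2).1 hpl]
      exact hl.1
    · exact fun h => ⟨p, mem_filter.2 ⟨h, hp⟩, dvd_rfl⟩
  obtain ⟨κ, δ, K, hδ, hK, H⟩ := arr (n := n + 1) (q := q) (L := L) hL (q * (m + (M + 1))) 0 ε hε
  -- the size of the values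
  obtain ⟨A, hA1, hA⟩ : ∃ A : ℕ, 1 ≤ A ∧ ∀ (x : Fin (n + 1) → ℤ) (i : Fin q),
      (val L x i).natAbs ≤ A * univ.sup fun k => (x k).natAbs := by
    refine ⟨∑ i, ∑ k, (L i k).natAbs + 1, by omega, fun x i => ?_⟩
    have h1 : ((val L x i).natAbs : ℤ) ≤ ∑ k, ((L i k).natAbs : ℤ) *
        ((univ.sup fun k => (x k).natAbs : ℕ) : ℤ) := by
      rw [← Int.abs_eq_natAbs]
      unfold val
      refine (abs_sum_le_sum_abs _ _).trans (sum_le_sum fun k _ => ?_)
      rw [abs_mul, Int.abs_eq_natAbs, Int.abs_eq_natAbs]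
      refine mul_le_mul_of_nonneg_left ?_ (Int.natCast_nonneg _)
      exact_mod_cast Finset.le_sup (f := fun k => (x k).natAbs) (mem_univ k)
    rw [← Finset.sum_mul] at h1
    have h2 : (val L x i).natAbs ≤ (∑ k, (L i k).natAbs) * univ.sup fun k => (x k).natAbs := by
      exact_mod_cast h1
    refine h2.trans (Nat.mul_le_mul_right _ ?_)
    have h3 := Finset.single_le_sum (f := fun i => ∑ k, (L i k).natAbs) (fun _ _ => Nat.zero_le _)
      (mem_univ i)
    omega
  have hA1r : (1 : ℝ) ≤ A := by exact_mod_cast hA1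
  obtain ⟨c, hc1, hc⟩ : ∃ c : ℕ, 1 ≤ c ∧ 1 + Real.log A ≤ (c : ℝ) ^ δ := by
    have h1 : Filter.Tendsto (fun c : ℕ => (c : ℝ) ^ δ) Filter.atTop Filter.atTop :=
      (tendsto_rpow_atTop hδ).comp tendsto_natCast_atTop_atTop
    obtain ⟨c, h2, h3⟩ := ((h1.eventually_ge_atTop (1 + Real.log A)).and
      (Filter.eventually_ge_atTop 1)).exists
    exact ⟨c, h3, h2⟩
  have hc1r : (1 : ℝ) ≤ c := by exact_mod_cast hc1
  obtain ⟨w, hw⟩ : ∃ w : ℕ, w = 2 * c + M + 2 := ⟨_, rfl⟩
  refine ⟨κ * (w + 1 : ℕ), δ, K * (w : ℝ) ^ ε, hδ, by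
    have : 0 < w := by omega
    positivity, fun X hX => ?_⟩
  have hX0 : 0 < X := by linarith
  obtain ⟨Y, hY⟩ : ∃ Y : ℕ, Y = c * ⌈X⌉₊ + M := ⟨_, rfl⟩
  have hceil : X ≤ (⌈X⌉₊ : ℝ) := Nat.le_ceil X
  have hceil2 : (⌈X⌉₊ : ℝ) < X + 1 := Nat.ceil_lt_add_one hX0.le
  have hYr : (Y : ℝ) = c * (⌈X⌉₊ : ℝ) + M := by rw [hY]; push_cast; rfl
  have hMr : (1 : ℝ) ≤ M := by exact_mod_cast hM0
  have hYX : X ≤ (Y : ℝ) := by rw [hYr]; nlinarith
  have hYcX : c * X ≤ (Y : ℝ) := by rw [hYr]; nlinarith
  have hY1 : 1 ≤ Y := by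
    have : (1 : ℝ) ≤ (Y : ℝ) := by linarith
    exact_mod_cast this
  have hY2 : (Y : ℝ) + 2 ≤ w * X := by
    rw [hYr, hw]
    push_cast
    nlinarith
  obtain ⟨𝓥, hV1, hV2, hV3⟩ := H Y hY1
  refine ⟨𝓥, hV1.trans ?_, hV2, fun x hx hN hm hh1 hh2 => ?_⟩
  · rw [mul_assoc]
    refine mul_le_mul_of_nonneg_left ?_ hK.le
    rw [← Real.mul_rpow (Nat.cast_nonneg _) hX0.le]
    exact Real.rpow_le_rpow (Nat.cast_nonneg _) (by linarith) hε.le
  · obtain ⟨Hx, hHx⟩ : ∃ Hx : ℕ, Hx = univ.sup fun k => (x k).natAbs := ⟨_, rfl⟩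
    have hheight : height x = Real.log (Hx : ℝ) := by rw [hHx]; rfl
    have hHx1 : 1 ≤ Hx := by
      by_contra hcon
      have h0 : Hx = 0 := by omega
      have h1 : ∀ k, x k = 0 := by
        intro k
        have h2 : (x k).natAbs ≤ Hx := by
          rw [hHx]
          exact Finset.le_sup (f := fun k => (x k).natAbs) (mem_univ k)
        omega
      have h3 := hx.1
      rw [Finset.gcd_eq_zero_iff.2 (fun k _ => h1 k)] at h3
      exact zero_ne_one h3
    have hHxr : (1 : ℝ) ≤ Hx := by exact_mod_cast hHx1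
    apply hV3 x hx.1 hx.2
    · intro i
      have h1 : ((|ev L x i| : ℤ) : ℝ) ≤ A * Hx := by
        rw [Int.abs_eq_natAbs, hHx]
        exact_mod_cast hA x i
      refine h1.trans ?_
      have h2 : (A : ℝ) * Hx = Real.exp (Real.log A + Real.log Hx) := by
        rw [Real.exp_add, Real.exp_log (by linarith), Real.exp_log (by linarith)]
      rw [h2]
      apply Real.exp_le_exp.2
      have h3 : (1 : ℝ) ≤ X ^ δ := Real.one_le_rpow (by linarith) hδ.le
      have h4 : (c * X) ^ δ ≤ (Y : ℝ) ^ δ := Real.rpow_le_rpow (by positivity) hYcX hδ.le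
      rw [Real.mul_rpow (by positivity) hX0.le] at h4
      have h5 : 0 ≤ Real.log A := Real.log_nonneg hA1r
      rw [hheight] at hh2
      nlinarith
    · apply exists_rep
      intro i
      have hy0 : (ev L x i).natAbs ≠ 0 := Int.natAbs_ne_zero.2 (hx.2 i)
      have hprs : prs M (ev L x i).natAbs =
          (val L x i).natAbs.primeFactors.filter (fun p => p ∉ S) := by
        unfold prs
        refine filter_congr fun p hp => ?_
        rw [hMdvd p (Nat.prime_of_mem_primeFactors hp)]
      apply pp_of hy0 hM0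
      · rw [hprs]
        refine (card_le_card ?_).trans hm
        unfold exponents
        exact Finset.subset_biUnion_of_mem (fun i : Fin q =>
          ((val L x i).natAbs.primeFactors.filter (fun p => p ∉ S)).image
            (val L x i).natAbs.factorization) (mem_univ i)
      · rw [hprs]
        have h1 : ((∏ p ∈ (val L x i).natAbs.primeFactors.filter (fun p => p ∉ S), p : ℕ) : ℝ) ≤
            X := by
          have h2 : Real.log ((∏ p ∈ (val L x i).natAbs.primeFactors.filter (fun p => p ∉ S), p :
              ℕ) : ℝ) ≤ counting S L x := by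
            push_cast
            rw [Real.log_prod (fun p hp => by
              have := (Nat.prime_of_mem_primeFactors (mem_filter.1 hp).1).pos
              exact_mod_cast this.ne')]
            unfold counting
            refine sum_le_sum_of_subset_of_nonneg ?_ (fun p hp _ => ?_)
            · intro p hp
              rw [mem_filter] at hp ⊢
              refine ⟨?_, hp.2⟩
              rw [Nat.mem_primeFactors] at hp ⊢
              refine ⟨hp.1.1, ?_, ?_⟩
              · exact hp.1.2.1.trans (Int.natAbs_dvd_natAbs.2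
                  (Finset.dvd_prod_of_mem _ (mem_univ i)))
              · exact Int.natAbs_ne_zero.2 (prod_ne_zero_iff.2 fun j _ => hx.2 j)
            · exact Real.log_nonneg (by
                exact_mod_cast (Nat.prime_of_mem_primeFactors (mem_filter.1 hp).1).one_lt.le)
          have h3 : (0 : ℝ) < ((∏ p ∈ (val L x i).natAbs.primeFactors.filter (fun p => p ∉ S), p :
              ℕ) : ℝ) := by
            have : 0 < ∏ p ∈ (val L x i).natAbs.primeFactors.filter (fun p => p ∉ S), p :=
              prod_pos fun p hp => (Nat.prime_of_mem_primeFactors (mem_filter.1 hp).1).pos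
            exact_mod_cast this
          exact (Real.log_le_log_iff h3 hX0).1 (h2.trans hN)
        have h2 := h1.trans hYX
        exact_mod_cast h2
      · rw [hY]
        exact Nat.le_add_left _ _
    · -- the height is large
      obtain ⟨k, -, hk⟩ := Finset.exists_mem_eq_sup univ ⟨0, mem_univ _⟩
        (fun k : Fin (n + 1) => (x k).natAbs)
      refine ⟨k, ?_⟩
      rw [Int.abs_eq_natAbs]
      rw [← hHx] at hk
      rw [← hk]
      have hlogX : 0 < Real.log X := Real.log_pos (by linarith)
      have h1 : (((Y : ℝ) + 2) ^ κ) < Hx := by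
        have h2 : (Y : ℝ) + 2 ≤ X ^ (w + 1) := by
          refine hY2.trans ?_
          rw [pow_succ]
          refine mul_le_mul_of_nonneg_right ?_ hX0.le
          calc (w : ℝ) ≤ 2 ^ w := by exact_mod_cast (Nat.lt_two_pow_self (n := w)).le
            _ ≤ X ^ w := pow_le_pow_left₀ (by norm_num) hX _
        have h3 : ((Y : ℝ) + 2) ^ κ ≤ X ^ ((w + 1) * κ) := by
          rw [pow_mul]
          exact pow_le_pow_left₀ (by positivity) h2 _
        refine h3.trans_lt ?_
        rw [hheight] at hh1
        rw [← Real.log_lt_log_iff (by positivity) (by linarith), Real.log_pow]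
        refine lt_of_eq_of_lt ?_ hh1
        push_cast
        ring
      exact_mod_cast h1

end Pool.Agent.Results.MP_9ec3f0_nt.IrreducibleArrangements
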