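import Pool.Agent.Results.MP_9ec3f0_nt.HyperplaneExceptions
import Pool.Agent.X149.CountableLimsup

/-!
# Vojta's conjecture with truncated counting function near almost every point

`K` is a number field, `e : K^n → ℝ^N` any map (for example a real embedding of `K` applied to the
coordinates, `N = n`, or the embedding into `(K ⊗ ℝ)^n`, `N = n [K : ℚ]`). For almost every `x ∈ ℝ^N` the
following holds for ALL finite sets `S` of places and ALL families of `r ≥ n + 1` hyperplanes
`D = H_1 + … + H_r` over `K` in general position. All but finitely many of the points `y ∈ K^n`, not on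
`D`, with `|e y - x| ≤ A H(y)^(-(n+1)/N)` (Dirichlet's exponent) satisfy `N_S^(1)(D, y) > θ h(y) + C`, for all
`θ < r`, `A`, `C`. As `N_S^(1)(D, y) ≤ r h(y) + O(1)`, the quotient `N_S^(1)(D, y) / h(y)` tends to `r`
along these points, while Vojta's conjecture asks for `r - n - 1 - ε`. For a fixed `θ` the weaker
exponents `τ > expo n r θ / N` are allowed, and the set of the `x` with infinitely many exceptions of
order `τ` has Hausdorff dimension at most `expo n r θ / τ`.
-/

set_option autoImplicit false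

open NumberField Height MeasureTheory Filter Set LinearAlgebra.Projectivization
open scoped ENNReal NNReal

namespace Pool.Agent.Results.MP_9ec3f0_nt.MetricTruncated

open Pool.Agent.H57R3.VJ (lin N1 NN Meets sv)
open Pool.Agent.Results.MP_9ec3f0_nt.HyperplaneExceptions (expo Exc)

variable {K : Type*} [Field K] [NumberField K] {n r : ℕ}

/-- the homogeneous coordinates `(1 : y_1 : … : y_n)` of an affine point -/
def aff (y : Fin n → K) : Fin (n + 1) → K := Fin.cons 1 y

/-- the height (relative to `K`) of an affine point -/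
noncomputable def ht (y : Fin n → K) : ℝ := mulHeight (aff y)

/-- hyperplanes in general position -/
def General (a : Fin r → Fin (n + 1) → K) : Prop :=
  ∀ I : Finset (Fin r), I.card = n + 1 → LinearIndependent K (fun i : I => a i)

/-- the `K`-points off the hyperplanes at which the truncated counting function is at most `θ h + C` -/
def Bad (S : Finset (FinitePlace K)) (a : Fin r → Fin (n + 1) → K) (θ C : ℝ) : Set (Fin n → K) :=
  {y | (∀ i, lin (a i) (aff y) ≠ 0) ∧ N1 S a (aff y) ≤ θ * Real.log (ht y) + C}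

lemma aff_ne_zero (y : Fin n → K) : aff y ≠ 0 := by
  intro h
  have := congrFun h 0
  simp [aff] at this

lemma one_le_ht (y : Fin n → K) : 1 ≤ ht y := one_le_mulHeight _

omit [NumberField K] in
lemma lin_smul (b x : Fin (n + 1) → K) (c : K) : lin b (c • x) = c * lin b x := by
  unfold lin
  rw [Finset.mul_sum]
  apply Finset.sum_congr rfl
  intro j _
  simp only [Pi.smul_apply, smul_eq_mul]
  ring

lemma sv_smul (v : FinitePlace K) (x : Fin (n + 1) → K) (c : K) : sv v (c • x) = v c * sv v x := by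
  unfold sv
  rw [Real.mul_iSup_of_nonneg (apply_nonneg v c)]
  congr 1
  funext j
  simp only [Pi.smul_apply, smul_eq_mul, map_mul]

lemma meets_smul (b x : Fin (n + 1) → K) {c : K} (hc : c ≠ 0) (v : FinitePlace K) :
    Meets b (c • x) v ↔ Meets b x v := by
  unfold Meets
  rw [lin_smul, sv_smul, map_mul]
  have hv : 0 < v c := FinitePlace.pos_iff.2 hc
  have : sv v b * (v c * sv v x) = v c * (sv v b * sv v x) := by ring
  rw [this]
  exact mul_lt_mul_iff_right₀ hv

lemma N1_smul (S : Finset (FinitePlace K)) (a : Fin r → Fin (n + 1) → K) (x : Fin (n + 1) → K) {c : K}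
    (hc : c ≠ 0) : N1 S a (c • x) = N1 S a x := by
  unfold N1
  apply finsum_congr
  intro v
  have h : (v ∉ S ∧ ∃ i, Meets (a i) (c • x) v) ↔ (v ∉ S ∧ ∃ i, Meets (a i) x v) :=
    and_congr_right fun _ => exists_congr fun i => meets_smul _ _ hc v
  by_cases h1 : v ∉ S ∧ ∃ i, Meets (a i) (c • x) v
  · rw [if_pos h1, if_pos (h.1 h1)]
  · rw [if_neg h1, if_neg (fun h2 => h1 (h.2 h2))]

/-- the projective point -/
noncomputable def pt (y : Fin n → K) : ℙ K (Fin (n + 1) → K) := Projectivization.mk K (aff y) (aff_ne_zero y)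

lemma pt_inj : Function.Injective (pt : (Fin n → K) → ℙ K (Fin (n + 1) → K)) := by
  intro y z h
  unfold pt at h
  rw [Projectivization.mk_eq_mk_iff'] at h
  obtain ⟨c, hc⟩ := h
  have h0 := congrFun hc 0
  simp only [aff, Pi.smul_apply, Fin.cons_zero, smul_eq_mul, mul_one] at h0
  funext j
  have h1 := congrFun hc j.succ
  simp only [aff, Pi.smul_apply, Fin.cons_succ, smul_eq_mul, h0, one_mul] at h1
  exact h1.symm

lemma pt_exc {S : Finset (FinitePlace K)} {a : Fin r → Fin (n + 1) → K} {θ C B : ℝ} {y : Fin n → K}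
    (hy : y ∈ Bad S a θ C) (hB : ht y ≤ B) : pt y ∈ Exc S a θ C B := by
  obtain ⟨c, hc⟩ := Projectivization.exists_smul_eq_mk_rep K (aff y) (aff_ne_zero y)
  have hc' : (pt y).rep = (c : K) • aff y := hc.symm
  have hh : (pt y).mulHeight = ht y := by
    unfold pt ht
    rw [Projectivization.mulHeight_mk]
  refine ⟨fun i => ?_, ?_, ?_⟩
  · rw [hc', lin_smul]
    exact mul_ne_zero c.ne_zero (hy.1 i)
  · rw [hh]; exact hB
  · rw [hh, hc', N1_smul S a _ c.ne_zero]
    exact hy.2

lemma bad_count (hn : 1 ≤ n) (hr : n + 1 ≤ r) {a : Fin r → Fin (n + 1) → K} (ha : General a)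
    (S : Finset (FinitePlace K)) {θ : ℝ} (C : ℝ) (hθ : 0 ≤ θ) {δ : ℝ} (hδ : 0 < δ) :
    ∃ M : ℝ, ∀ B : ℝ, 1 ≤ B → {y | y ∈ Bad S a θ C ∧ ht y ≤ B}.Finite ∧
      ((({y | y ∈ Bad S a θ C ∧ ht y ≤ B}.ncard : ℕ) : ℝ) ≤ M * B ^ (expo n r θ + δ)) := by
  obtain ⟨M, hM⟩ := (HyperplaneExceptions.result K n r hn hr a ha S θ C δ hθ hδ).2
  refine ⟨M, fun B hB => ?_⟩
  obtain ⟨h1, h2⟩ := hM B hB
  have hmaps : Set.MapsTo pt {y | y ∈ Bad S a θ C ∧ ht y ≤ B} (Exc S a θ C B) :=
    fun y hy => pt_exc hy.1 hy.2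
  have hinj : Set.InjOn pt {y | y ∈ Bad S a θ C ∧ ht y ≤ B} := pt_inj.injOn
  refine ⟨Set.Finite.of_injOn hmaps hinj h1, ?_⟩
  refine le_trans ?_ h2
  apply Nat.cast_le.2
  exact Set.ncard_le_ncard_of_injOn pt hmaps hinj h1

lemma expo_nonneg (hn : 1 ≤ n) (hr : n + 1 ≤ r) {θ : ℝ} (hθ : 0 ≤ θ) : 0 ≤ expo n r θ := by
  have hr2 : (2 : ℝ) ≤ r := by
    have : 2 ≤ r := by omega
    exact_mod_cast this
  have hn1 : (1 : ℝ) ≤ n := by exact_mod_cast hn
  have hnr : (n : ℝ) + 1 ≤ r := by exact_mod_cast hr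
  unfold expo
  apply le_min
  · apply mul_nonneg hθ
    rw [sub_nonneg]
    apply div_le_one_of_le₀ _ (Nat.cast_nonneg _)
    exact_mod_cast Nat.choose_le_choose (n + 1) (Nat.sub_le r n)
  · apply mul_nonneg (by linarith)
    rw [sub_nonneg, div_le_one (by apply mul_pos <;> linarith)]
    calc (n : ℝ) * (r - θ) ≤ (r - 1) * r := by
          nlinarith
      _ = r * (r - 1) := by ring

lemma countable_K : Countable K := by
  have e := (Module.finBasis ℚ K).equivFun.toEquiv
  exact e.countable_iff.2 inferInstance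

lemma summable_bad (hn : 1 ≤ n) (hr : n + 1 ≤ r) {a : Fin r → Fin (n + 1) → K} (ha : General a)
    (S : Finset (FinitePlace K)) {θ : ℝ} (C : ℝ) (hθ : 0 ≤ θ) {ρ : ℝ} (hρ : expo n r θ < ρ) :
    Summable fun y : Bad S a θ C => (ht (y : Fin n → K)) ^ (-ρ) := by
  obtain ⟨M, hM⟩ := bad_count hn hr ha S C hθ (δ := (ρ - expo n r θ) / 2) (by linarith)
  exact X149.CountableLimsup.summable_height (fun y => one_le_ht y) hM (by linarith)
    ((expo_nonneg hn hr hθ).trans hρ.le)

variable {N : ℕ}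

/-- the points `y` whose image `e y` is at distance at most `A H(y) ^ (-τ)` from `x` -/
def Near (e : (Fin n → K) → (Fin N → ℝ)) (A τ : ℝ) (x : Fin N → ℝ) : Set (Fin n → K) :=
  {y | ‖e y - x‖ ≤ A * ht y ^ (-τ)}

lemma near_null (hn : 1 ≤ n) (hr : n + 1 ≤ r) {a : Fin r → Fin (n + 1) → K} (ha : General a)
    (S : Finset (FinitePlace K)) {θ : ℝ} (C : ℝ) (hθ : 0 ≤ θ) (e : (Fin n → K) → (Fin N → ℝ)) (A : ℝ)
    {τ : ℝ} (hτ : expo n r θ < N * τ) :
    ∀ᵐ x : Fin N → ℝ, (Near e A τ x ∩ Bad S a θ C).Finite := by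
  have hK := countable_K (K := K)
  set A' : ℝ := max A 0 with hA'
  have hA0 : 0 ≤ A' := le_max_right _ _
  have hs := summable_bad hn hr ha S C hθ hτ
  have hball : ∀ y : Bad S a θ C, volume (Metric.closedBall (e y) (A' * ht (y : Fin n → K) ^ (-τ))) =
      ENNReal.ofReal ((2 * A') ^ N * (ht (y : Fin n → K)) ^ (-(N * τ))) := by
    intro y
    have h1 := one_le_ht (y : Fin n → K)
    rw [Real.volume_pi_closedBall _ (by positivity), Fintype.card_fin]
    congr 1
    rw [← mul_assoc, mul_pow, ← Real.rpow_natCast (ht (y : Fin n → K) ^ (-τ)), ← Real.rpow_mul (by linarith)]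
    congr 2
    ring
  have hfin : ∑' y : Bad S a θ C, volume (Metric.closedBall (e y) (A' * ht (y : Fin n → K) ^ (-τ))) ≠ ∞ := by
    simp only [hball]
    exact (hs.mul_left _).tsum_ofReal_ne_top
  have h := ae_finite_setOfPred_mem hfin
  filter_upwards [h] with x hx
  refine (hx.image (fun y : Bad S a θ C => (y : Fin n → K))).subset ?_
  rintro y ⟨hy1, hy2⟩
  refine ⟨⟨y, hy2⟩, ?_, rfl⟩
  have h1 := one_le_ht y
  have h2 : ‖e y - x‖ ≤ A' * ht y ^ (-τ) :=
    le_trans hy1 (mul_le_mul_of_nonneg_right (le_max_left _ _) (by positivity))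
  show x ∈ Metric.closedBall (e y) (A' * ht y ^ (-τ))
  rw [Metric.mem_closedBall, dist_comm, dist_eq_norm]
  exact h2

lemma near_dim (hn : 1 ≤ n) (hr : n + 1 ≤ r) {a : Fin r → Fin (n + 1) → K} (ha : General a)
    (S : Finset (FinitePlace K)) {θ : ℝ} (C : ℝ) (hθ : 0 ≤ θ) (e : (Fin n → K) → (Fin N → ℝ)) (A : ℝ)
    {τ : ℝ} (hτ : 0 < τ) :
    dimH {x : Fin N → ℝ | (Near e A τ x ∩ Bad S a θ C).Infinite} ≤ ENNReal.ofReal (expo n r θ / τ) := by
  have hK := countable_K (K := K)
  set A' : ℝ := max A 0 with hA'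
  have hA0 : 0 ≤ A' := le_max_right _ _
  have hex := expo_nonneg (n := n) (r := r) hn hr hθ
  -- it suffices to treat larger dimensions
  refine le_of_forall_gt_imp_ge_of_dense ?_
  intro d hd
  induction d using ENNReal.recTopCoe with
  | top => exact le_top
  | coe d =>
  rw [ENNReal.ofReal_lt_coe_iff (by positivity)] at hd
  have hd0 : (0 : ℝ) < d := lt_of_le_of_lt (by positivity) hd
  have hρ : expo n r θ < d * τ := by rwa [div_lt_iff₀ hτ] at hd
  apply dimH_le_of_hausdorffMeasure_ne_top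
  have hs := summable_bad hn hr ha S C hθ hρ
  have hdiam : ∀ y : Bad S a θ C,
      (Metric.ediam (Metric.closedBall (e y) (A' * ht (y : Fin n → K) ^ (-τ)))) ^ (d : ℝ) ≤
      ENNReal.ofReal ((2 * A') ^ (d : ℝ) * (ht (y : Fin n → K)) ^ (-(d * τ))) := by
    intro y
    have h1 := one_le_ht (y : Fin n → K)
    have h2 : Metric.ediam (Metric.closedBall (e y) (A' * ht (y : Fin n → K) ^ (-τ))) ≤
        ENNReal.ofReal (2 * (A' * ht (y : Fin n → K) ^ (-τ))) := by
      apply Metric.ediam_le
      intro u hu v hv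
      rw [edist_dist]
      apply ENNReal.ofReal_le_ofReal
      rw [Metric.mem_closedBall] at hu hv
      have := dist_triangle_right u v (e y)
      linarith
    refine (ENNReal.rpow_le_rpow h2 hd0.le).trans ?_
    rw [ENNReal.ofReal_rpow_of_nonneg (by positivity) hd0.le]
    apply ENNReal.ofReal_le_ofReal
    apply le_of_eq
    rw [← mul_assoc, Real.mul_rpow (by positivity) (by positivity), ← Real.rpow_mul (by linarith)]
    congr 2
    ring
  have hfin : ∑' y : Bad S a θ C,
      (Metric.ediam (Metric.closedBall (e y) (A' * ht (y : Fin n → K) ^ (-τ)))) ^ (d : ℝ) ≠ ∞ := by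
    apply ne_top_of_le_ne_top _ (ENNReal.tsum_le_tsum hdiam)
    exact (hs.mul_left _).tsum_ofReal_ne_top
  have h := X149.CountableLimsup.hausdorff_null
    (fun y : Bad S a θ C => Metric.closedBall (e y) (A' * ht (y : Fin n → K) ^ (-τ))) hd0 hfin
  apply ne_top_of_le_ne_top ENNReal.zero_ne_top
  rw [← h]
  apply measure_mono
  intro x hx hcon
  apply hx
  refine (hcon.image (fun y : Bad S a θ C => (y : Fin n → K))).subset ?_
  rintro y ⟨hy1, hy2⟩
  refine ⟨⟨y, hy2⟩, ?_, rfl⟩
  have h1 := one_le_ht y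
  have h2 : ‖e y - x‖ ≤ A' * ht y ^ (-τ) :=
    le_trans hy1 (mul_le_mul_of_nonneg_right (le_max_left _ _) (by positivity))
  show x ∈ Metric.closedBall (e y) (A' * ht y ^ (-τ))
  rw [Metric.mem_closedBall, dist_comm, dist_eq_norm]
  exact h2

lemma countable_places : Countable (FinitePlace K) := by
  have h : (Set.univ : Set (FinitePlace K)) = ⋃ T : ℕ, {v : FinitePlace K | NN v ≤ T} := by
    ext v
    simp only [Set.mem_univ, Set.mem_iUnion, true_iff]
    exact exists_nat_ge (NN v)
  rw [← Set.countable_univ_iff, h]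
  exact Set.countable_iUnion fun T => (Pool.Agent.H57R3.VJ.finite_NN (T : ℝ)).countable

lemma bad_mono {S : Finset (FinitePlace K)} {a : Fin r → Fin (n + 1) → K} {θ θ' C C' : ℝ} (h1 : θ ≤ θ')
    (h2 : C ≤ C') : Bad S a θ C ⊆ Bad S a θ' C' := by
  intro y hy
  refine ⟨hy.1, hy.2.trans ?_⟩
  have := mul_le_mul_of_nonneg_right h1 (Real.log_nonneg (one_le_ht y))
  linarith

lemma near_mono {e : (Fin n → K) → (Fin N → ℝ)} {A A' τ τ' : ℝ} (h1 : A ≤ A') (h2 : τ' ≤ τ)
    (hA : 0 ≤ A') (x : Fin N → ℝ) : Near e A τ x ⊆ Near e A' τ' x := by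
  intro y hy
  have h3 := one_le_ht y
  have h4 : ht y ^ (-τ) ≤ ht y ^ (-τ') := Real.rpow_le_rpow_of_exponent_le h3 (by linarith)
  refine le_trans hy ((mul_le_mul_of_nonneg_right h1 (by positivity)).trans
    (mul_le_mul_of_nonneg_left h4 hA))

lemma expo_cont (n r : ℕ) : Continuous fun θ => expo n r θ := by
  unfold expo
  fun_prop

/-- all arrangements, all sets of places and all parameters at once -/
lemma near_all (hn : 1 ≤ n) (hN : 1 ≤ N) (e : (Fin n → K) → (Fin N → ℝ)) :
    ∀ᵐ x : Fin N → ℝ, ∀ (r : ℕ) (a : Fin r → Fin (n + 1) → K) (S : Finset (FinitePlace K)),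
      n + 1 ≤ r → General a → ∀ θ τ A C : ℝ, 0 ≤ θ → expo n r θ < N * τ →
        (Near e A τ x ∩ Bad S a θ C).Finite := by
  have hK := countable_K (K := K)
  have hP := countable_places (K := K)
  have hN0 : (0 : ℝ) < N := by exact_mod_cast hN
  have h : ∀ᵐ x : Fin N → ℝ, ∀ (r : ℕ) (a : Fin r → Fin (n + 1) → K) (S : Finset (FinitePlace K))
      (θ τ : ℚ) (A C : ℕ), n + 1 ≤ r → General a → (0 : ℝ) ≤ θ → expo n r θ < N * (τ : ℝ) →
        (Near e A τ x ∩ Bad S a θ C).Finite := by
    simp only [ae_all_iff]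
    intro r a S θ τ A C hr ha hθ hτ
    exact near_null hn hr ha S C hθ e A hτ
  filter_upwards [h] with x hx r a S hr ha θ τ A C hθ hτ
  obtain ⟨A', hA'⟩ := exists_nat_ge A
  obtain ⟨C', hC'⟩ := exists_nat_ge C
  obtain ⟨τ', h1, h2⟩ := exists_rat_btwn (show (expo n r θ + N * τ) / 2 / N < τ by
    rw [div_lt_iff₀ hN0]
    linarith)
  have hc := (expo_cont n r).tendsto θ
  have h3 := hc.eventually (gt_mem_nhds (show expo n r θ < (expo n r θ + N * τ) / 2 by linarith))
  rw [Metric.eventually_nhds_iff] at h3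
  obtain ⟨ε, hε, h4⟩ := h3
  obtain ⟨θ', h5, h6⟩ := exists_rat_btwn (show θ < θ + ε by linarith)
  have h7 : expo n r θ' < (expo n r θ + N * τ) / 2 := by
    apply h4
    rw [Real.dist_eq, abs_of_pos (by linarith)]
    linarith
  have h8 : expo n r θ' < N * (τ' : ℝ) := by
    rw [div_lt_iff₀ hN0] at h1
    linarith
  refine (hx r a S θ' τ' A' C' hr ha (by linarith) h8).subset ?_
  exact Set.inter_subset_inter (near_mono hA' h2.le (Nat.cast_nonneg _) x) (bad_mono h5.le hC')

/-- the trivial upper bound -/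
lemma upper (hr : n + 1 ≤ r) {a : Fin r → Fin (n + 1) → K} (ha : General a)
    (S : Finset (FinitePlace K)) : ∃ C : ℝ, ∀ y : Fin n → K, (∀ i, lin (a i) (aff y) ≠ 0) →
      N1 S a (aff y) ≤ r * Real.log (ht y) + C := by
  classical
  have ha0 : ∀ i, a i ≠ 0 := fun i => Pool.Agent.H57R3.VJ.GenPos.ne_zero ha hr i
  set c : Fin r → ℝ := fun i => ((n + 1 : ℕ) : ℝ) ^ (Module.finrank ℚ K) * mulHeight (a i) with hc
  have hc0 : ∀ i, 0 < c i := by
    intro i
    have := one_le_mulHeight (a i)
    simp only [hc]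
    positivity
  refine ⟨∑ i, Real.log (c i), fun y hy => ?_⟩
  have hfin : ∀ i, {v : FinitePlace K | Meets (a i) (aff y) v}.Finite := fun i =>
    Pool.Agent.H57R3.VJ.meets_fin (ha0 i) (aff_ne_zero y) (hy i)
  have hsup : (Function.support fun v : FinitePlace K =>
      if v ∉ S ∧ ∃ i, Meets (a i) (aff y) v then Real.log (NN v) else 0) ⊆
      ↑(Finset.univ.biUnion fun i => (hfin i).toFinset) := by
    intro v hv
    rw [Function.mem_support] at hv
    have h1 : v ∉ S ∧ ∃ i, Meets (a i) (aff y) v := by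
      by_contra hcon
      exact hv (if_neg hcon)
    obtain ⟨i, hi⟩ := h1.2
    rw [Finset.mem_coe, Finset.mem_biUnion]
    exact ⟨i, Finset.mem_univ i, (Set.Finite.mem_toFinset _).2 hi⟩
  have hlog : ∀ v : FinitePlace K, 0 ≤ Real.log (NN v) := fun v =>
    Real.log_nonneg (by linarith [Pool.Agent.H57R3.VJ.two_le_NN v])
  have h1 : N1 S a (aff y) ≤ ∑ v ∈ Finset.univ.biUnion fun i => (hfin i).toFinset, Real.log (NN v) := by
    unfold N1
    have e1 := finsum_eq_sum_of_support_subset _ hsup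
    refine le_trans (le_of_eq ?_) (le_trans (le_of_eq e1) (Finset.sum_le_sum fun v _ => ?_))
    · apply finsum_congr
      intro v
      by_cases h2 : v ∉ S ∧ ∃ i, Meets (a i) (aff y) v
      · simp only [if_pos h2]
      · simp only [if_neg h2]
    · split_ifs
      · exact le_rfl
      · exact hlog v
  have h2 : ∑ v ∈ Finset.univ.biUnion (fun i => (hfin i).toFinset), Real.log (NN v) ≤
      ∑ i, ∑ v ∈ (hfin i).toFinset, Real.log (NN v) := by
    set U : Finset (FinitePlace K) := Finset.univ.biUnion fun i => (hfin i).toFinset with hU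
    calc ∑ v ∈ U, Real.log (NN v) ≤
          ∑ v ∈ U, ∑ i, (if v ∈ (hfin i).toFinset then Real.log (NN v) else 0) := by
          apply Finset.sum_le_sum
          intro v hv
          rw [hU, Finset.mem_biUnion] at hv
          obtain ⟨i, _, hi⟩ := hv
          have h3 := Finset.single_le_sum
            (f := fun i => (if v ∈ (hfin i).toFinset then Real.log (NN v) else 0))
            (fun j _ => by
              show 0 ≤ (if v ∈ (hfin j).toFinset then Real.log (NN v) else 0)
              split_ifs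
              · exact hlog v
              · exact le_rfl) (Finset.mem_univ i)
          refine le_trans (le_of_eq ?_) h3
          show Real.log (NN v) = (if v ∈ (hfin i).toFinset then Real.log (NN v) else 0)
          rw [if_pos hi]
      _ = ∑ i, ∑ v ∈ U, (if v ∈ (hfin i).toFinset then Real.log (NN v) else 0) := Finset.sum_comm
      _ ≤ ∑ i, ∑ v ∈ (hfin i).toFinset, Real.log (NN v) := by
          apply Finset.sum_le_sum
          intro i _
          rw [← Finset.sum_filter]
          apply Finset.sum_le_sum_of_subset_of_nonneg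
          · intro v hv
            exact (Finset.mem_filter.1 hv).2
          · intro v _ _
            exact hlog v
  have h3 : ∀ i, ∑ v ∈ (hfin i).toFinset, Real.log (NN v) ≤ Real.log (c i) + Real.log (ht y) := by
    intro i
    have hy1 := one_le_ht y
    rw [← Real.log_prod (fun v _ => (Pool.Agent.H57R3.VJ.NN_pos v).ne'),
      ← Real.log_mul (hc0 i).ne' (by linarith)]
    apply Real.log_le_log (Finset.prod_pos fun v _ => Pool.Agent.H57R3.VJ.NN_pos v)
    refine Pool.Agent.H57R3.VJ.fmt (ha0 i) (aff_ne_zero y) (hy i) _ (fun v hv => ?_)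
    exact (Set.Finite.mem_toFinset (hfin i)).1 hv
  refine h1.trans (h2.trans ((Finset.sum_le_sum fun i _ => h3 i).trans (le_of_eq ?_)))
  rw [Finset.sum_add_distrib, Finset.sum_const, Finset.card_univ, Fintype.card_fin, nsmul_eq_mul]
  ring

/-- **Main theorem.** `e : K^n → ℝ^N` is any map, for example a real embedding of `K` applied to the
coordinates (`N = n`) or the embedding into `K ⊗ ℝ` (`N = n [K : ℚ]`). -/
theorem result (K : Type*) [Field K] [NumberField K] (n N : ℕ) (hn : 1 ≤ n) (hN : 1 ≤ N)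
    (e : (Fin n → K) → (Fin N → ℝ)) :
    (∀ᵐ x : Fin N → ℝ, ∀ (r : ℕ) (a : Fin r → Fin (n + 1) → K) (S : Finset (FinitePlace K)),
      n + 1 ≤ r → General a →
        (∀ θ A C : ℝ, θ < r → (Near e A (((n : ℝ) + 1) / N) x ∩ Bad S a θ C).Finite) ∧
        (∀ θ τ A C : ℝ, 0 ≤ θ → expo n r θ < N * τ → (Near e A τ x ∩ Bad S a θ C).Finite)) ∧
    (∀ (r : ℕ) (a : Fin r → Fin (n + 1) → K) (S : Finset (FinitePlace K)), n + 1 ≤ r → General a →
      (∀ θ τ A C : ℝ, 0 ≤ θ → 0 < τ →
        dimH {x : Fin N → ℝ | (Near e A τ x ∩ Bad S a θ C).Infinite} ≤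
          ENNReal.ofReal (expo n r θ / τ)) ∧
      (∃ C : ℝ, ∀ y : Fin n → K, (∀ i, lin (a i) (aff y) ≠ 0) →
        N1 S a (aff y) ≤ r * Real.log (ht y) + C)) := by
  refine ⟨?_, fun r a S hr ha => ⟨fun θ τ A C hθ hτ => near_dim hn hr ha S C hθ e A hτ, upper hr ha S⟩⟩
  filter_upwards [near_all hn hN e] with x hx r a S hr ha
  refine ⟨fun θ A C hθ => ?_, hx r a S hr ha⟩
  have hN0 : (0 : ℝ) < N := by exact_mod_cast hN
  have hr0 : (0 : ℝ) < r := by
    have : 0 < r := by omega
    exact_mod_cast this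
  set θ' : ℝ := max θ 0 with hθ'
  have h1 : θ' < r := max_lt hθ hr0
  have h2 := (HyperplaneExceptions.result K n r hn hr a ha S θ' C 1 (le_max_right _ _) one_pos).1 h1
  have h3 : expo n r θ' < N * (((n : ℝ) + 1) / N) := by
    rw [mul_div_cancel₀ _ hN0.ne']
    exact h2
  exact (hx r a S hr ha θ' _ A C (le_max_right _ _) h3).subset
    (Set.inter_subset_inter_right _ (bad_mono (le_max_left _ _) le_rfl))

end Pool.Agent.Results.MP_9ec3f0_nt.MetricTruncated
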