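import Mathlib
import Pool.Agent.X4.VP.Main

/-!
# Rational points with small truncated counting functions for each hyperplane

Let `L_1, …, L_q` be hyperplanes in general position in the projective space of dimension `n ≥ 1`
over `ℚ`. Vojta's conjecture with truncated counting functions predicts that for real numbers
`α_j ≤ 1` with `α_1 + … + α_q < q - n - 1` the rational points `P` with
`N^(1)(L_j, P) ≤ α_j h(P)` for all `j` are not Zariski dense (up to finitely many). We show that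
the bound `q - n - 1` is sharp for every shape of `(α_1, …, α_q)`: if the sum is larger than
`q - n - 1` then there are at least `C X ^ (∑ α_j - (q - n - 1))` such points of height about `X`,
close to any given real point and off any given hypersurface.

The points are constructed in the lattices defined by congruences `L_j(x) ≡ 0 mod p_j ^ e_j`, with
fixed primes `p_j`. By the subspace theorem, applied on all the subspaces of the dual space, the
dual lattices have no short vectors.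
-/

set_option autoImplicit false

namespace Pool.Agent.Results.MP_9ec3f0_nt.SmallCountingHyperplanes

open Finset MvPolynomial

/-- the value at `x` of the linear form with the coefficients `L` -/
def ev {n : ℕ} (L x : Fin (n + 1) → ℤ) : ℤ := ∑ l, L l * x l

/-- the truncated counting function of the hyperplane `L`: the sum of `log p` over all the primes
`p` which divide `L(x)` -/
noncomputable def N1 {n : ℕ} (L x : Fin (n + 1) → ℤ) : ℝ :=
  ∑ p ∈ (ev L x).natAbs.primeFactors, Real.log p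

/-- the absolute logarithmic height of the point with the coordinates `x`, if these are integers
without a common prime factor -/
noncomputable def height {n : ℕ} (x : Fin (n + 1) → ℤ) : ℝ :=
  Real.log ((Finset.univ.sup fun l => (x l).natAbs : ℕ) : ℝ)

/-- the integer vectors `x` whose coordinates have no common prime factor, with
`|x_l - c_l X| ≤ ρ X` for all `l`, with `F(x) ≠ 0`, and with `L_j(x) ≠ 0` and
`N^(1)(L_j, x) ≤ α_j h(x) - T` for all `j` -/
def Points {n q : ℕ} (L : Fin q → Fin (n + 1) → ℤ) (α : Fin q → ℝ) (T : ℝ)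
    (F : MvPolynomial (Fin (n + 1)) ℤ) (c : Fin (n + 1) → ℝ) (ρ X : ℝ) :
    Set (Fin (n + 1) → ℤ) :=
  {x | (∀ p : ℕ, p.Prime → ∃ l, ¬ (p : ℤ) ∣ x l) ∧ (∀ l, |(x l : ℝ) - X * c l| ≤ ρ * X) ∧
    eval x F ≠ 0 ∧ ∀ j, ev (L j) x ≠ 0 ∧ N1 (L j) x ≤ α j * height x - T}

theorem N1_eq {n : ℕ} (L x : Fin (n + 1) → ℤ) :
    N1 L x = Real.log (Pool.Agent.X4.VP.rad (ev L x).natAbs) := by
  unfold N1 Pool.Agent.X4.VP.rad
  rw [Nat.cast_prod, Real.log_prod]
  intro p hp
  exact_mod_cast (Nat.prime_of_mem_primeFactors hp).ne_zero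

theorem sub_pts {n q : ℕ} (L : Fin q → Fin (n + 1) → ℤ) {α : Fin q → ℝ} (hα : ∀ j, 0 < α j)
    (hα1 : ∀ j, α j ≤ 1) (T : ℝ) :
    ∃ ε : ℝ, 0 < ε ∧ ∀ (F : MvPolynomial (Fin (n + 1)) ℤ) (c : Fin (n + 1) → ℝ) (ρ X : ℝ),
      Pool.Agent.X4.VP.Pts L α ε F c ρ X ⊆ Points L α T F c ρ X := by
  classical
  set M : ℝ := 1 + ∑ j, ∑ l, |(L j l : ℝ)| with hM
  have hM0 : 0 ≤ ∑ j, ∑ l, |(L j l : ℝ)| :=
    Finset.sum_nonneg fun j _ => Finset.sum_nonneg fun l _ => abs_nonneg _
  have hM1 : 1 ≤ M := by rw [hM]; linarith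
  refine ⟨Real.exp (-T) / M, by positivity, ?_⟩
  rintro F c ρ X x ⟨h1, h2, h3, h4⟩
  refine ⟨h1, h2, h3, fun j => ?_⟩
  obtain ⟨h5, h6⟩ := h4 j
  refine ⟨h5, ?_⟩
  change (∑ l, L j l * x l) ≠ 0 at h5
  have hn : 0 < (ev (L j) x).natAbs := Int.natAbs_pos.2 h5
  have hr : (0 : ℝ) < Pool.Agent.X4.VP.rad (ev (L j) x).natAbs := by
    have : 0 < Pool.Agent.X4.VP.rad (ev (L j) x).natAbs :=
      Finset.prod_pos fun p hp => (Nat.prime_of_mem_primeFactors hp).pos
    exact_mod_cast this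
  set H : ℕ := Finset.univ.sup fun l => (x l).natAbs with hH
  have hxl : ∀ l, |(x l : ℝ)| ≤ H := by
    intro l
    have h7 : (x l).natAbs ≤ H := Finset.le_sup (f := fun l => (x l).natAbs) (Finset.mem_univ l)
    have h8 : (((x l).natAbs : ℕ) : ℝ) = |(x l : ℝ)| := by rw [Nat.cast_natAbs, Int.cast_abs]
    rw [← h8]
    exact_mod_cast h7
  have hval : |((∑ l, L j l * x l : ℤ) : ℝ)| ≤ M * H := by
    rw [Int.cast_sum]
    refine (Finset.abs_sum_le_sum_abs _ _).trans ?_
    have h7 : ∀ l, |((L j l * x l : ℤ) : ℝ)| ≤ |(L j l : ℝ)| * H := fun l => by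
      rw [Int.cast_mul, abs_mul]
      exact mul_le_mul_of_nonneg_left (hxl l) (abs_nonneg _)
    refine (Finset.sum_le_sum fun l _ => h7 l).trans ?_
    rw [← Finset.sum_mul]
    apply mul_le_mul_of_nonneg_right _ (Nat.cast_nonneg _)
    have h8 : ∑ l, |(L j l : ℝ)| ≤ ∑ j, ∑ l, |(L j l : ℝ)| :=
      Finset.single_le_sum (f := fun j => ∑ l, |(L j l : ℝ)|)
        (fun j _ => Finset.sum_nonneg fun l _ => abs_nonneg _) (Finset.mem_univ j)
    rw [hM]; linarith
  have habs : (1 : ℝ) ≤ |((∑ l, L j l * x l : ℤ) : ℝ)| := by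
    have : (1 : ℤ) ≤ |∑ l, L j l * x l| := Int.one_le_abs h5
    exact_mod_cast this
  have hH0 : (0 : ℝ) < H := by
    by_contra hcon
    have h9 : (H : ℝ) = 0 := le_antisymm (not_lt.1 hcon) (Nat.cast_nonneg _)
    rw [h9, mul_zero] at hval
    linarith
  rw [N1_eq]
  change (Pool.Agent.X4.VP.rad (ev (L j) x).natAbs : ℝ) ≤ _ at h6
  have h10 : (Pool.Agent.X4.VP.rad (ev (L j) x).natAbs : ℝ) ≤ Real.exp (-T) * (H : ℝ) ^ (α j) := by
    refine h6.trans ?_
    have h11 : |((∑ l, L j l * x l : ℤ) : ℝ)| ^ (α j) ≤ M * (H : ℝ) ^ (α j) := by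
      calc |((∑ l, L j l * x l : ℤ) : ℝ)| ^ (α j) ≤ (M * H) ^ (α j) :=
            Real.rpow_le_rpow (by positivity) hval (hα j).le
        _ = M ^ (α j) * (H : ℝ) ^ (α j) := Real.mul_rpow (by linarith) hH0.le
        _ ≤ M ^ (1 : ℝ) * (H : ℝ) ^ (α j) := by
            apply mul_le_mul_of_nonneg_right _ (by positivity)
            exact Real.rpow_le_rpow_of_exponent_le hM1 (hα1 j)
        _ = M * (H : ℝ) ^ (α j) := by rw [Real.rpow_one]
    calc Real.exp (-T) / M * |((∑ l, L j l * x l : ℤ) : ℝ)| ^ (α j) ≤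
        Real.exp (-T) / M * (M * (H : ℝ) ^ (α j)) :=
          mul_le_mul_of_nonneg_left h11 (by positivity)
      _ = _ := by field_simp
  have h12 := Real.log_le_log hr h10
  rw [Real.log_mul (by positivity) (by positivity), Real.log_exp, Real.log_rpow hH0] at h12
  change _ ≤ α j * Real.log (H : ℝ) - T
  linarith

/-- **Main theorem.** Let `n ≥ 1`, let `L_1, …, L_q` be linear forms in `n + 1` variables with
integer coefficients in general position (any `n + 1` of them, or all of them if `q ≤ n`, are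
linearly independent), `0 < α_j ≤ 1` and `α_1 + … + α_q > q - n - 1`. Then for every `T`, every
nonzero polynomial `F`, every real vector `c` and `ρ > 0` there are `C > 0` and `X₀` such that for
all `X ≥ X₀` there are at least `C X ^ (∑ α_j - (q - n - 1))` integer vectors `x` without a common
prime factor with `|x_l - c_l X| ≤ ρ X` for all `l`, `F(x) ≠ 0`, and
`N^(1)(L_j, x) ≤ α_j h(x) - T` for all `j`. -/
theorem result (n q : ℕ) (hn : 1 ≤ n) (L : Fin q → Fin (n + 1) → ℤ)
    (hL : ∀ A : Finset (Fin q), A.card ≤ n + 1 →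
      LinearIndependent ℚ (fun (j : A) (l : Fin (n + 1)) => (L j l : ℚ)))
    (α : Fin q → ℝ) (hα0 : ∀ j, 0 < α j) (hα1 : ∀ j, α j ≤ 1)
    (hα : (q : ℝ) - n - 1 < ∑ j, α j) (T : ℝ) (F : MvPolynomial (Fin (n + 1)) ℤ) (hF : F ≠ 0)
    (c : Fin (n + 1) → ℝ) (ρ : ℝ) (hρ : 0 < ρ) :
    (∀ X : ℝ, (Points L α T F c ρ X).Finite) ∧
    ∃ C X₀ : ℝ, 0 < C ∧ ∀ X : ℝ, X₀ ≤ X →
      C * X ^ (∑ j, α j - (q - n - 1)) ≤ ((Points L α T F c ρ X).ncard : ℝ) := by
  classical
  have hfin : ∀ X : ℝ, (Points L α T F c ρ X).Finite := by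
    intro X
    have h1 : (Set.univ.pi fun l : Fin (n + 1) =>
        Set.Icc ⌈X * c l - ρ * X⌉ ⌊X * c l + ρ * X⌋).Finite :=
      Set.Finite.pi fun l => Set.finite_Icc _ _
    refine h1.subset ?_
    rintro x ⟨-, h2, -⟩ l -
    have h3 := abs_le.1 (h2 l)
    exact ⟨Int.ceil_le.2 (by linarith [h3.1]), Int.le_floor.2 (by linarith [h3.2])⟩
  refine ⟨hfin, ?_⟩
  obtain ⟨k, rfl⟩ : ∃ k, n = k + 1 := ⟨n - 1, by omega⟩
  obtain ⟨ε, hε, hsub⟩ := sub_pts L hα0 hα1 T
  have hL0 : ∀ j, L j ≠ 0 := by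
    intro j h0
    have h1 := (hL {j} (by simp)).ne_zero ⟨j, Finset.mem_singleton_self j⟩
    apply h1
    funext l
    simp [h0]
  obtain ⟨C, X₀, hC, h⟩ := Pool.Agent.X4.VP.main_rk (k := k) L hL0 α hα1
    (Pool.Agent.X4.VP.gp_cond (n := k + 2) hL hα0 hα1 (by push_cast at hα ⊢; linarith)) hε hF c hρ
  refine ⟨C, X₀, hC, fun X hX => ?_⟩
  have h1 : (∑ j, α j - ((q : ℝ) - ((k + 1 : ℕ) : ℝ) - 1)) = (k : ℝ) + 2 - ∑ j, (1 - α j) := by
    rw [Finset.sum_sub_distrib]
    simp only [Finset.sum_const, Finset.card_univ, Fintype.card_fin, nsmul_eq_mul, mul_one]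
    push_cast
    ring
  rw [h1]
  refine (h X hX).trans ?_
  exact_mod_cast Set.ncard_le_ncard (hsub F c ρ X) (hfin X)

end Pool.Agent.Results.MP_9ec3f0_nt.SmallCountingHyperplanes
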