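import Mathlib
import Pool.Agent.TH551.HA.Fin
import Pool.Agent.X134.TL.Main

/-!
# MP_9ec3f0_nt: level one truncation for every reduced divisor on the torus, points with
# coordinates close to S-units and sparse factorisation

Let `f` be a form of degree `d` over `ℚ` in `N + 1` variables without multiple factors (so the
hypersurface `f = 0` is an arbitrary reduced one: it may be reducible and singular, and in any
position to the coordinate hyperplanes and to their intersections). Together with the boundary of
a toric compactification `X` of the torus `z_0 ⋯ z_N ≠ 0` of projective space on which the closure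
`Z` of `f = 0` is base point free it gives the divisor `D = ∂X + Z`, and `K_X + D = Z`; the height
of `Z` is the height of the vector of the monomials of `f`,

  `h_Z(z) = log max_α |z^α| - log gcd_α (z^α)`, `α` in the support of `f`,

which is `d h(z)` if all the powers `X_i ^ d` occur in `f` and `z` is primitive.

Let a finitely generated group `Γ` of rational numbers (for instance all `S`-units), a number `k`
and exponents `e_j ≥ 1` be given. For every `ε > 0` there are a form `G ≠ 0` and a constant `C` such
that all points off `G = 0` with integral coordinates `z_i` (nonzero, of absolute value at most `H`),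
each the product of an element of `Γ` and an integer of absolute value at most `M`, and with

  `f(z) = w * ∏ x_j ^ (e_j)`, not zero, `w` an integer in `Γ`,

the integers `x_j` being sums of `k` products of elements of `Γ` and integers of absolute value at
most `M`, satisfy

  `h_Z(z) ≤ ∑_{e_j = 1} log |x_j| + ε log H + C (1 + log M)`.

This is the inequality of the conjecture, the truncated counting function being replaced by the
logarithm of the product of the simple factors only: neither the multiple factors nor the
coordinates are counted.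
-/

set_option autoImplicit false

namespace Pool.Agent.Results.MP_9ec3f0_nt.ToricLevelOne

open MvPolynomial Pool.Agent.TH551.HA Pool.Agent.X134.TL

theorem result (N p k : ℕ) (f : MvPolynomial (Fin (N + 1)) ℚ) (d : ℕ) (hf : f.IsHomogeneous d)
    (hsq : Squarefree f) (e : Fin p → ℕ) (he : ∀ i, 1 ≤ e i) (Γ : Subgroup ℚˣ) (hΓ : Γ.FG)
    (ε : ℝ) (hε : 0 < ε) :
    ∃ (G : MvPolynomial (Fin (N + 1)) ℚ) (C : ℝ), (∃ d', G.IsHomogeneous d') ∧ G ≠ 0 ∧
      ∀ M : ℝ, 1 ≤ M → ∀ (z : Fin (N + 1) → ℤ) (x : Fin p → ℤ) (w : ℤ) (H : ℝ),
        (∀ i, IsSparse Γ 1 M (z i)) → (∀ j, IsSparse Γ k M (x j)) →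
        (∃ g ∈ Γ, (w : ℚ) = (g : ℚ)) → (∀ i, z i ≠ 0) → (∀ i, |(z i : ℝ)| ≤ H) →
        aeval (fun i => (z i : ℚ)) f = ((w * ∏ j, x j ^ (e j) : ℤ) : ℚ) →
        aeval (fun i => (z i : ℚ)) f ≠ 0 → aeval (fun i => (z i : ℚ)) G ≠ 0 →
        ∀ α ∈ f.support, Real.log |((∏ i, z i ^ (α i) : ℤ) : ℝ)| -
          Real.log |((f.support.gcd (fun β => ∏ i, z i ^ (β i)) : ℤ) : ℝ)| ≤
          ∑ j with e j = 1, Real.log |(x j : ℝ)| + ε * Real.log H + C * (1 + Real.log M) :=
  tlMain ncF csF hbF fwF N p k f d hf hsq e he Γ hΓ ε hε

end Pool.Agent.Results.MP_9ec3f0_nt.ToricLevelOne
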